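import Mathlib
import Pool.Agent.Lib.P675cc6.Sections
import Pool.Agent.Lib.P675cc6.Pos

/-!
Semilinearity of the reachability sets of one-dimensional grammar vector addition systems, and
computability of semilinear representations for thin ones.
-/

namespace Pool.Agent.Results.MP_675cc6_lc.ThinRepresentations

open Pool.Agent.Lib.P675cc6 Set Pointwise

/-- The word `v` of integers leads from `a` to `b`: all partial sums, started at `a`, are
nonnegative and the total is `b`. -/
def Leads (a : ℕ) (v : List ℤ) (b : ℕ) : Prop :=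
  (∀ p : List ℤ, p <+: v → 0 ≤ (a : ℤ) + p.sum) ∧ (a : ℤ) + v.sum = b

/-- The reachability relation of the nonterminal `X` of a 1-GVAS `G`, that is, of a context-free
grammar whose terminals are integers: some word of integers derivable from `X` leads
from `a` to `b`. -/
def Reach (G : ContextFreeGrammar ℤ) (X : G.NT) (a b : ℕ) : Prop :=
  ∃ v : List ℤ, G.Derives [Symbol.nonterminal X] (v.map Symbol.terminal) ∧ Leads a v b

/-- A 1-GVAS is thin if no nonterminal `X` derives a sentential form with two occurrences of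
`X`. -/
def Thin (G : ContextFreeGrammar ℤ) : Prop :=
  ∀ (X : G.NT) (α β γ : List (Symbol ℤ G.NT)), ¬ G.Derives [Symbol.nonterminal X]
    (α ++ [Symbol.nonterminal X] ++ β ++ [Symbol.nonterminal X] ++ γ)

/-- Codes of 1-GVAS: the initial nonterminal and the list of rules `X → α`. The nonterminals are
natural numbers; in a right-hand side, `Sum.inl z` is the terminal `z` and `Sum.inr Y` is the
nonterminal `Y`. -/
abbrev Code := ℕ × List (ℕ × List (ℤ ⊕ ℕ))

/-- The symbol coded by an element of `ℤ ⊕ ℕ`. -/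
def symb : ℤ ⊕ ℕ → Symbol ℤ ℕ := Sum.elim Symbol.terminal Symbol.nonterminal

/-- The 1-GVAS with a given code. -/
@[reducible] def gvas (c : Code) : ContextFreeGrammar ℤ where
  NT := ℕ
  initial := c.1
  rules := (c.2.map fun r => (⟨r.1, r.2.map symb⟩ : ContextFreeRule ℤ ℕ)).toFinset

/-- The set of natural numbers denoted by a semilinear representation: the union of the sets
`c + ℕ p₁ + ... + ℕ pₘ` over the entries `(c, [p₁, ..., pₘ])` of the list. -/
def denotes (L : List (ℕ × List ℕ)) : Set ℕ :=
  {b | ∃ r ∈ L, ∃ y ∈ AddSubmonoid.closure {p : ℕ | p ∈ r.2}, b = r.1 + y}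

theorem leads_nil (a b : ℕ) : Leads a [] b ↔ a = b := by
  simp [Leads]

theorem leads_append (a b : ℕ) (v w : List ℤ) :
    Leads a (v ++ w) b ↔ ∃ c, Leads a v c ∧ Leads c w b := by
  constructor
  · rintro ⟨h1, h2⟩
    have h3 : 0 ≤ (a : ℤ) + v.sum := h1 v (List.prefix_append _ _)
    obtain ⟨c, hc⟩ := Int.eq_ofNat_of_zero_le h3
    refine ⟨c, ⟨fun p hp => h1 p (hp.trans (List.prefix_append _ _)), hc⟩, ⟨?_, ?_⟩⟩
    · intro p hp
      have := h1 (v ++ p) ((List.prefix_append_right_inj v).2 hp)
      rw [List.sum_append] at this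
      omega
    · rw [List.sum_append] at h2
      omega
  · rintro ⟨c, ⟨h1, h2⟩, ⟨h3, h4⟩⟩
    refine ⟨?_, ?_⟩
    · intro p hp
      rcases le_total p.length v.length with hl | hl
      · exact h1 p (List.prefix_of_prefix_length_le hp (List.prefix_append _ _) hl)
      · obtain ⟨q, rfl⟩ := List.prefix_of_prefix_length_le (List.prefix_append v w) hp hl
        have := h3 q ((List.prefix_append_right_inj v).1 hp)
        rw [List.sum_append]
        omega
    · rw [List.sum_append]
      omega

theorem leads_singleton (a b : ℕ) (z : ℤ) : Leads a [z] b ↔ (a : ℤ) + z = b := by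
  constructor
  · rintro ⟨_, h⟩
    simpa using h
  · intro h
    refine ⟨?_, by simpa using h⟩
    intro p hp
    rcases List.prefix_cons_iff.1 hp with rfl | ⟨t, rfl, ht⟩
    · simp
    · rw [List.prefix_nil.1 ht]
      simp only [List.sum_cons, List.sum_nil]
      omega

/-- Runs of `s ++ s'` split. -/
theorem Run.append_iff {N : Type} {R : Set (ContextFreeRule ℤ N)} {s s' : List (Symbol ℤ N)}
    {i o : ℕ} : Run R (s ++ s') i o ↔ ∃ m, Run R s i m ∧ Run R s' m o := by
  constructor
  · intro h
    generalize ht : s ++ s' = t at h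
    induction h generalizing s with
    | nil i =>
      obtain ⟨rfl, rfl⟩ := List.append_eq_nil_iff.1 ht
      exact ⟨i, .nil _, .nil _⟩
    | @term z u i j o hz hu ih =>
      cases s with
      | nil =>
        simp only [List.nil_append] at ht
        subst ht
        exact ⟨i, .nil _, .term hz hu⟩
      | cons x s =>
        simp only [List.cons_append, List.cons.injEq] at ht
        obtain ⟨rfl, rfl⟩ := ht
        obtain ⟨m, h1, h2⟩ := ih rfl
        exact ⟨m, .term hz h1, h2⟩
    | @nt r u i m o hr h1 h2 _ ih =>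
      cases s with
      | nil =>
        simp only [List.nil_append] at ht
        subst ht
        exact ⟨i, .nil _, .nt hr h1 h2⟩
      | cons x s =>
        simp only [List.cons_append, List.cons.injEq] at ht
        obtain ⟨rfl, rfl⟩ := ht
        obtain ⟨m', h3, h4⟩ := ih rfl
        exact ⟨m', .nt hr h1 h3, h4⟩
  · rintro ⟨m, h1, h2⟩
    induction h1 with
    | nil i => exact h2
    | term hz _ ih => exact .term hz (ih h2)
    | nt hr h _ _ ih => exact .nt hr h (ih h2)

theorem run_of_derives {G : ContextFreeGrammar ℤ} {s : List (Symbol ℤ G.NT)} {v : List ℤ}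
    (h : G.Derives s (v.map Symbol.terminal)) {a b : ℕ} (hv : Leads a v b) :
    Run (G.rules : Set (ContextFreeRule ℤ G.NT)) s a b := by
  induction h using Relation.ReflTransGen.head_induction_on with
  | refl =>
    induction v generalizing a with
    | nil =>
      rw [leads_nil] at hv
      subst hv
      exact .nil _
    | cons z v ih =>
      rw [← List.singleton_append, leads_append] at hv
      obtain ⟨c, h1, h2⟩ := hv
      rw [leads_singleton] at h1
      exact .term h1 (ih h2)
  | head h _ ih =>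
    obtain ⟨r, hr, hrw⟩ := h
    obtain ⟨p, q, rfl, rfl⟩ := hrw.exists_parts
    rw [List.append_assoc, Run.append_iff] at ih
    obtain ⟨m1, h1, h2⟩ := ih
    rw [Run.append_iff] at h2
    obtain ⟨m2, h2, h3⟩ := h2
    rw [List.append_assoc, Run.append_iff]
    exact ⟨m1, h1, .nt hr h2 h3⟩

theorem derives_of_run {G : ContextFreeGrammar ℤ} {s : List (Symbol ℤ G.NT)} {a b : ℕ}
    (h : Run (G.rules : Set (ContextFreeRule ℤ G.NT)) s a b) :
    ∃ v : List ℤ, G.Derives s (v.map Symbol.terminal) ∧ Leads a v b := by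
  induction h with
  | nil i => exact ⟨[], .refl _, (leads_nil _ _).2 rfl⟩
  | @term z s i j o hz _ ih =>
    obtain ⟨v, hv, hl⟩ := ih
    refine ⟨z :: v, ?_, ?_⟩
    · exact hv.append_left [Symbol.terminal z]
    · rw [← List.singleton_append, leads_append]
      exact ⟨j, (leads_singleton _ _ _).2 hz, hl⟩
  | @nt r s i m o hr _ _ ih1 ih2 =>
    obtain ⟨v, hv, hl⟩ := ih1
    obtain ⟨w, hw, hl'⟩ := ih2
    refine ⟨v ++ w, ?_, (leads_append _ _ _ _).2 ⟨m, hl, hl'⟩⟩
    have e1 : G.Derives (Symbol.nonterminal r.input :: s) (r.output ++ s) :=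
      ContextFreeGrammar.Produces.single ⟨r, hr, .head s⟩
    have e2 := hv.append_right s
    have e3 := hw.append_left (v.map Symbol.terminal)
    rw [List.map_append]
    exact (e1.trans e2).trans e3

theorem reach_iff_run (G : ContextFreeGrammar ℤ) (X : G.NT) (a b : ℕ) :
    Reach G X a b ↔
      Run (G.rules : Set (ContextFreeRule ℤ G.NT)) [Symbol.nonterminal X] a b :=
  ⟨fun ⟨_, h, hl⟩ => run_of_derives h hl, derives_of_run⟩

/-! ### Codes -/

/-- The set of rules. -/
def rulesSet (c : Code) : Set (ContextFreeRule ℤ ℕ) :=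
  {r | ∃ x ∈ c.2, r = ⟨x.1, x.2.map symb⟩}

theorem mem_rules {c : Code} {r : ContextFreeRule ℤ ℕ} :
    r ∈ rulesSet c ↔ ∃ x ∈ c.2, r = ⟨x.1, x.2.map symb⟩ := Iff.rfl

theorem rules_eq (c : Code) : ((gvas c).rules : Set (ContextFreeRule ℤ (gvas c).NT)) =
    rulesSet c := by
  refine Set.ext fun (r : ContextFreeRule ℤ ℕ) => ?_
  refine Iff.trans (Finset.mem_coe (a := r)
    (s := (c.2.map fun r => (⟨r.1, r.2.map symb⟩ : ContextFreeRule ℤ ℕ)).toFinset)) ?_
  rw [List.mem_toFinset, List.mem_map]
  constructor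
  · rintro ⟨x, hx, rfl⟩; exact ⟨x, hx, rfl⟩
  · rintro ⟨x, hx, rfl⟩; exact ⟨x, hx, rfl⟩

theorem runC_run {c : Code} {s : Wd} {i o : ℕ} (h : RunC c.2 s i o) :
    Run (rulesSet c) (s.map symb) i o := by
  induction h with
  | nil i => exact .nil i
  | term hz _ ih => exact .term hz ih
  | @nt X α s i m o hr _ _ ih1 ih2 =>
    exact Run.nt (r := ⟨X, α.map symb⟩) (mem_rules.2 ⟨_, hr, rfl⟩) ih1 ih2

theorem run_runC {c : Code} {t : List (Symbol ℤ ℕ)} {i o : ℕ}
    (h : Run (rulesSet c) t i o) :
    ∀ s : Wd, t = s.map symb → RunC c.2 s i o := by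
  induction h with
  | nil i =>
    intro s hs
    rw [eq_comm, List.map_eq_nil_iff] at hs
    subst hs
    exact .nil _
  | @term z t i j o hz _ ih =>
    intro s hs
    rcases s with - | ⟨z' | X, s⟩
    · simp at hs
    · simp only [List.map_cons, symb, Sum.elim_inl, List.cons.injEq, Symbol.terminal.injEq] at hs
      obtain ⟨rfl, hs⟩ := hs
      exact .term hz (ih s hs)
    · simp [symb] at hs
  | @nt r t i m o hr _ _ ih1 ih2 =>
    intro s hs
    obtain ⟨⟨X, α⟩, hx, rfl⟩ := mem_rules.1 hr
    rcases s with - | ⟨z' | X', s⟩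
    · simp at hs
    · simp [symb] at hs
    · simp only [List.map_cons, symb, Sum.elim_inr, List.cons.injEq,
        Symbol.nonterminal.injEq] at hs
      obtain ⟨rfl, hs⟩ := hs
      exact .nt hx (ih1 α rfl) (ih2 s hs)

theorem reach_iff_runC {c : Code} {a b : ℕ} :
    Reach (gvas c) (gvas c).initial a b ↔ RunC c.2 [Sum.inr c.1] a b := by
  rw [reach_iff_run, rules_eq]
  constructor
  · intro h
    exact run_runC h [Sum.inr c.1] rfl
  · intro h
    exact runC_run h

theorem dv_derives {c : Code} {s s' : Wd} (h : Dv c.2 s s') :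
    (gvas c).Derives (s.map symb) (s'.map symb) := by
  induction h with
  | refl => exact .refl _
  | tail _ h ih =>
    refine ih.trans_produces ?_
    obtain ⟨X, α, hX, p, q, rfl, rfl⟩ := h
    have hr : (⟨X, α.map symb⟩ : ContextFreeRule ℤ ℕ) ∈ (gvas c).rules := by
      have h1 : (⟨X, α.map symb⟩ : ContextFreeRule ℤ ℕ) ∈ rulesSet c := ⟨_, hX, rfl⟩
      rw [← rules_eq] at h1
      exact h1
    refine ⟨⟨X, α.map symb⟩, hr, ?_⟩
    rw [ContextFreeRule.rewrites_iff]
    refine ⟨p.map symb, q.map symb, ?_, ?_⟩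
    · rw [List.map_append, List.map_append]; rfl
    · rw [List.map_append, List.map_append]

theorem thin_thinC {c : Code} (h : Thin (gvas c)) : ThinC c.2 := by
  intro X p q r hd
  have h1 := dv_derives hd
  refine h X (p.map symb) (q.map symb) (r.map symb) ?_
  rw [List.map_append, List.map_append, List.map_append, List.map_append] at h1
  exact h1

/-! ### The algorithm -/

/-- The certificates which the algorithm searches for. -/
abbrev Wit := (ℕ × ℕ × List (ℕ × ℕ) × List (ℕ × ℕ)) × NC × List Fact

/-- The check of a certificate. -/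
def chk (x : Code × ℕ) (w : Wit) : Bool :=
  decide (0 < w.1.2.1) &&
  ((List.range w.1.1).all fun b => memB (w.1.2.2.1 ++ w.1.2.2.2) (b, 0)) &&
  ((List.range w.1.2.1).all fun r => memB (w.1.2.2.1 ++ w.1.2.2.2) (w.1.1 + r, w.1.2.1)) &&
  negChk x.1.1 x.1.2 x.2 w.1.2.2.2 w.2.1 && posChk x.1.1 x.1.2 x.2 w.1.2.2.1 w.2.2

/-- The output. -/
def out (w : Wit) : List (ℕ × List ℕ) := w.1.2.2.1.map fun cM => (cM.1, [cM.2])

theorem chk_primrec : Primrec (fun q : (Code × ℕ) × Wit => chk q.1 q.2) := by
  unfold chk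
  fun_prop

theorem out_primrec : Primrec out := by
  unfold out
  fun_prop

/-- The algorithm: search for a certificate. -/
def alg (x : Code × ℕ) : Part (List (ℕ × List ℕ)) := Nat.rfindOpt fun n =>
  (Encodable.decode n : Option Wit).bind fun w => bif chk x w then some (out w) else none

theorem alg_partrec : Partrec alg := by
  refine Partrec.rfindOpt (Primrec.to_comp ?_)
  refine Primrec.option_bind (Primrec.decode.comp Primrec.snd) ?_
  refine Primrec.cond ?_ (Primrec.option_some.comp (out_primrec.comp Primrec.snd))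
    (Primrec.const none)
  exact chk_primrec.comp (Primrec.pair (Primrec.fst.comp Primrec.fst) Primrec.snd)

theorem alg_sound {c : Code} {a : ℕ} {L : List (ℕ × List ℕ)} (h : L ∈ alg (c, a)) :
    {b | Reach (gvas c) (gvas c).initial a b} = denotes L := by
  obtain ⟨n, hn⟩ := Nat.rfindOpt_spec h
  rw [Option.mem_def, Option.bind_eq_some_iff] at hn
  obtain ⟨⟨⟨T, M, L1, L2⟩, nc, D⟩, -, hw⟩ := hn
  cases hc : chk (c, a) ((T, M, L1, L2), nc, D) with
  | false => rw [hc] at hw; simp at hw
  | true =>
    rw [hc] at hw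
    simp only [cond_true, Option.some.injEq] at hw
    subst hw
    simp only [chk, Bool.and_eq_true, decide_eq_true_eq, List.all_eq_true, memB_iff,
      List.mem_range] at hc
    obtain ⟨⟨⟨⟨hM, hc1⟩, hc2⟩, hneg⟩, hpos⟩ := hc
    refine Set.ext fun b => Iff.trans (reach_iff_runC (c := c)) ?_
    simp only [mem_ofPred_eq, denotes]
    constructor
    · intro hb
      obtain ⟨cM, hcM, k, hk⟩ : ∃ cM ∈ L1 ++ L2, ∃ k, b = cM.1 + k * cM.2 := by
        by_cases hbT : b < T
        · exact ⟨_, hc1 b hbT, 0, by simp⟩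
        · refine ⟨_, hc2 _ (Nat.mod_lt (b - T) hM), (b - T) / M, ?_⟩
          have h2 := Nat.mod_add_div (b - T) M
          rw [show T + (b - T) % M + (b - T) / M * M = T + ((b - T) % M + M * ((b - T) / M)) by
            ring, h2]
          omega
      rcases List.mem_append.1 hcM with h1 | h1
      · refine ⟨(cM.1, [cM.2]), List.mem_map.2 ⟨cM, h1, rfl⟩, k * cM.2, ?_, hk⟩
        have := nsmul_mem (AddSubmonoid.mem_closure_of_mem
          (show cM.2 ∈ {p : ℕ | p ∈ [cM.2]} by simp)) k
        simpa using this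
      · exact absurd hk (neg_sound hneg hb cM h1 k)
    · rintro ⟨r, hr, y, hy, rfl⟩
      simp only [out, List.mem_map] at hr
      obtain ⟨cM, hcM, rfl⟩ := hr
      have : {p : ℕ | p ∈ [cM.2]} = {cM.2} := by ext; simp
      dsimp only at hy
      rw [this, AddSubmonoid.mem_closure_singleton] at hy
      obtain ⟨k, rfl⟩ := hy
      exact pos_sound hpos cM hcM k

theorem alg_complete {c : Code} (hc : Thin (gvas c)) (a : ℕ) : (alg (c, a)).Dom := by
  classical
  unfold alg
  rw [Nat.rfindOpt_dom]
  obtain ⟨S, ρ⟩ := c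
  obtain ⟨M, T, hM, hpf, hper⟩ := run_period ρ S a
  let L1 : List (ℕ × ℕ) := ((List.range T).filter (fun b => RunC ρ [.inr S] a b)).map
      (fun b => (b, 0)) ++ ((List.range M).filter (fun r => RunC ρ [.inr S] a (T + r))).map
      (fun r => (T + r, M))
  let L2 : List (ℕ × ℕ) := ((List.range T).filter (fun b => ¬ RunC ρ [.inr S] a b)).map
      (fun b => (b, 0)) ++ ((List.range M).filter (fun r => ¬ RunC ρ [.inr S] a (T + r))).map
      (fun r => (T + r, M))
  -- the inductive family
  obtain ⟨G, h1, h2, h3, h4, h5⟩ := word_sep (thin_thinC hc) S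
    (((a, 0) : ℕ × ℕ) +ᵥ (AddMonoidHom.inr ℕ ℕ) '' {b | RunC ρ [.inr S] a b}ᶜ)
    (((runC_semilinear ρ S a).compl.image _).vadd _) (by
      rintro _ ⟨_, ⟨b, hb, rfl⟩, rfl⟩ hrun
      apply hb
      simpa using hrun)
  obtain ⟨nc, hnc⟩ := neg_complete (a := a) (L' := L2) G h1 h2 h3 h4 (by
    intro cM hcM k hG
    refine Set.disjoint_left.1 h5 hG ⟨_, ⟨cM.1 + k * cM.2, ?_, rfl⟩, by simp⟩
    simp only [L2, List.mem_append, List.mem_map, List.mem_filter, List.mem_range,
      decide_eq_true_eq] at hcM
    rcases hcM with ⟨b, ⟨hb, hnb⟩, rfl⟩ | ⟨r, ⟨hr, hnr⟩, rfl⟩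
    · simpa using hnb
    · simp only [mem_compl_iff, mem_ofPred_eq]
      rw [hper _ (show T ≤ T + r + k * M by omega),
        show T + r + k * M - T = r + k * M by omega, Nat.add_mul_mod_self_right,
        Nat.mod_eq_of_lt hr]
      exact hnr)
  obtain ⟨D, hD⟩ := pos_complete (S := S) (ρ := ρ) (a := a) (L := L1) (by
    intro cM hcM
    simp only [L1, List.mem_append, List.mem_map, List.mem_filter, List.mem_range,
      decide_eq_true_eq] at hcM
    rcases hcM with ⟨b, ⟨hb, hrb⟩, rfl⟩ | ⟨r, ⟨hr, hrr⟩, rfl⟩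
    · exact PF.of_run hrb 0
    · exact hpf _ (Nat.le_add_right _ _) hrr)
  set w : Wit := ((T, M, L1, L2), nc, D) with hw
  have hchk : chk ((S, ρ), a) w = true := by
    simp only [hw, chk, Bool.and_eq_true, decide_eq_true_eq, List.all_eq_true, memB_iff,
      List.mem_range]
    refine ⟨⟨⟨⟨hM, fun b hb => ?_⟩, fun r hr => ?_⟩, hnc⟩, hD⟩
    · by_cases hrun : RunC ρ [.inr S] a b
      · refine List.mem_append_left _ (List.mem_append_left _ (List.mem_map.2 ⟨b, ?_, rfl⟩))
        simp [hb, hrun]
      · refine List.mem_append_right _ (List.mem_append_left _ (List.mem_map.2 ⟨b, ?_, rfl⟩))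
        simp [hb, hrun]
    · by_cases hrun : RunC ρ [.inr S] a (T + r)
      · refine List.mem_append_left _ (List.mem_append_right _ (List.mem_map.2 ⟨r, ?_, rfl⟩))
        simp [hr, hrun]
      · refine List.mem_append_right _ (List.mem_append_right _ (List.mem_map.2 ⟨r, ?_, rfl⟩))
        simp [hr, hrun]
  refine ⟨Encodable.encode w, out w, ?_⟩
  rw [Encodable.encodek, Option.bind_some, hchk]
  rfl

/-- (i) For every 1-GVAS `G` (thin or not) and every natural number `a`, the reachability set
`R_G(a)` is semilinear. (ii) There is an algorithm (a partial recursive function) that, given the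
code of a 1-GVAS `G` and a natural number `a`, can only output a semilinear representation of
`R_G(a)`, and that halts with an output whenever `G` is thin. -/
theorem result :
    (∀ (G : ContextFreeGrammar ℤ) (a : ℕ), IsSemilinearSet {b : ℕ | Reach G G.initial a b}) ∧
    ∃ f : Code × ℕ →. List (ℕ × List ℕ), Partrec f ∧
      (∀ (c : Code) (a : ℕ), Thin (gvas c) → (f (c, a)).Dom) ∧
      (∀ (c : Code) (a : ℕ) (L : List (ℕ × List ℕ)), L ∈ f (c, a) →
        {b : ℕ | Reach (gvas c) (gvas c).initial a b} = denotes L) := by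
  refine ⟨fun G a => ?_, alg, alg_partrec, fun c a hc => alg_complete hc a,
    fun c a L h => alg_sound h⟩
  have h := run_semilinear (R := (G.rules : Set (ContextFreeRule ℤ G.NT)))
    (Finset.finite_toSet _) G.initial a
  simp only [reach_iff_run]
  exact h

end Pool.Agent.Results.MP_675cc6_lc.ThinRepresentations
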